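import Pool.Agent.Lib_helper77.PLF.Planar

set_option autoImplicit false

/-!
# The bound `(p - 1) m < p ^ a`
-/

namespace Pool.Agent.Lib_helper77.PLF

open MonoidAlgebra

section Main

variable {p : ℕ} [Fact p.Prime] {G N W : Type} [Group G] [Group N] [CommGroup W]
  [Fintype G] [Fintype N] [Fintype W]

/-- All fibres of the graph over `W` have size divisible by `p`. -/
theorem fibre_dvd [DecidableEq W] (q : G × N →* W) (j : W →* G × N) (hqj : ∀ w, q (j w) = w)
    (hj : ∀ w k, j w * k = k * j w) (hH : IsPGroup p q.ker) (hW : ¬ p ∣ Nat.card W)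
    (φ : G → N) (hφ : Planar φ) (hv : p ∣ Fintype.card G) (w : W) :
    p ∣ (Finset.univ.filter (fun x : G => q (x, φ x) = w)).card := by
  classical
  have hv0 : (Fintype.card G : ZMod p) = 0 := (ZMod.natCast_eq_zero_iff _ _).2 hv
  obtain ⟨n, hn, hpow⟩ := large_pow q j hqj hj hH hW (Rg p φ) 3
  set r := mapDomainRingHom (ZMod p) q (Rg p φ) with hr
  have hr' : r = ∑ x : G, single (q (x, φ x)) (1 : ZMod p) := by
    rw [hr, Rg, map_sum]
    exact Finset.sum_congr rfl fun x _ => mdr_single q _ _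
  have hE : mapDomainRingHom (ZMod p) j r =
      ∑ x : G, single (j (q (x, φ x))) (1 : ZMod p) := by
    rw [hr', map_sum]
    exact Finset.sum_congr rfl fun x _ => mdr_single j _ _
  have h1 : mapDomainRingHom (ZMod p) j r * Rs p φ = 0 := by
    rw [← hpow]
    obtain ⟨c, rfl⟩ := Nat.exists_eq_add_of_le hn
    rw [add_comm, pow_add, mul_assoc, R3_Rs φ hφ hv0, mul_zero]
  rw [central j hj] at h1
  have h2 : mapDomainRingHom (ZMod p) j r = 0 := by
    by_contra h0
    have h3 := weight φ hφ _ h1 h0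
    have h4 : (mapDomainRingHom (ZMod p) j r).coeff.support ⊆
        Finset.univ.image (fun x : G => j (q (x, φ x))) := by
      intro k hk
      rw [Finsupp.mem_support_iff, hE, coeff_sum, Finsupp.finsetSum_apply] at hk
      obtain ⟨x, _, hx⟩ := Finset.exists_ne_zero_of_sum_ne_zero hk
      rw [Finset.mem_image]
      refine ⟨x, Finset.mem_univ _, ?_⟩
      by_contra hne
      apply hx
      rw [coeff_single, Finsupp.single_apply, if_neg hne]
    have h5 := Finset.card_le_card h4
    have h6 : (Finset.univ.image (fun x : G => j (q (x, φ x)))).card ≤ Fintype.card G :=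
      Finset.card_image_le
    omega
  have h3 : r = 0 := by
    have hinj : Function.Injective (mapDomainRingHom (ZMod p) j) := by
      apply mapDomain_injective
      intro a b hab
      rw [← hqj a, ← hqj b, hab]
    exact hinj (by rw [h2, map_zero])
  have h4 : r.coeff w = ((Finset.univ.filter (fun x : G => q (x, φ x) = w)).card : ZMod p) := by
    rw [hr', coeff_sum, Finsupp.finsetSum_apply, Finset.card_filter]
    push_cast
    refine Finset.sum_congr rfl fun x _ => ?_
    rw [coeff_single, Finsupp.single_apply]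
  rw [h3] at h4
  exact (ZMod.natCast_eq_zero_iff _ _).1 h4.symm

/-- The sum of the squares of the fibre sizes. -/
theorem sum_sq [DecidableEq W] [DecidableEq G] (q : G × N →* W) (φ : G → N) (hφ : Planar φ) :
    ∑ w : W, (Finset.univ.filter (fun x : G => q (x, φ x) = w)).card ^ 2 =
      Fintype.card G + ∑ t ∈ Finset.univ.filter (fun t : G => t ≠ 1),
        ∑ n : N, (if q (t, n) = 1 then 1 else 0) := by
  have h1 : ∑ w : W, (Finset.univ.filter (fun x : G => q (x, φ x) = w)).card ^ 2 =
      ∑ y : G, ∑ x : G, (if q (x, φ x) = q (y, φ y) then 1 else 0) := by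
    have : ∀ w : W, (Finset.univ.filter (fun x : G => q (x, φ x) = w)).card ^ 2 =
        ∑ y : G, ∑ x : G, (if q (x, φ x) = w then 1 else 0) * (if q (y, φ y) = w then 1 else 0) := by
      intro w
      rw [sq, Finset.card_filter, Finset.sum_mul_sum, Finset.sum_comm]
    simp only [this]
    rw [Finset.sum_comm]
    refine Finset.sum_congr rfl fun y _ => ?_
    rw [Finset.sum_comm]
    refine Finset.sum_congr rfl fun x _ => ?_
    rw [Finset.sum_eq_single (q (y, φ y))]
    · simp
    · intro b _ hb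
      have hb' : ¬ q (y, φ y) = b := fun h => hb h.symm
      rw [if_neg hb', mul_zero]
    · intro h
      exact absurd (Finset.mem_univ _) h
  have h2 : ∑ y : G, ∑ x : G, (if q (x, φ x) = q (y, φ y) then 1 else 0) =
      ∑ t : G, ∑ y : G, (if q (t, φ (t * y) * (φ y)⁻¹) = 1 then 1 else 0) := by
    rw [Finset.sum_comm (γ := G)
      (f := fun t y => (if q (t, φ (t * y) * (φ y)⁻¹) = 1 then 1 else 0))]
    refine Finset.sum_congr rfl fun y _ => ?_
    refine Fintype.sum_equiv (Equiv.mulRight y⁻¹) _ _ ?_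
    intro x
    have h3 : ((x * y⁻¹, φ (x * y⁻¹ * y) * (φ y)⁻¹) : G × N) = (x, φ x) * (y, φ y)⁻¹ := by
      rw [inv_mul_cancel_right]
      rfl
    refine if_congr ?_ rfl rfl
    change _ ↔ q (x * y⁻¹, φ (x * y⁻¹ * y) * (φ y)⁻¹) = 1
    rw [h3, map_mul, map_inv, mul_inv_eq_one]
  rw [h1, h2, ← Finset.sum_filter_add_sum_filter_not Finset.univ (fun t : G => t ≠ 1), add_comm]
  congr 1
  · have h3 : Finset.univ.filter (fun t : G => ¬ t ≠ 1) = {1} := by
      ext t; simp
    rw [h3, Finset.sum_singleton]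
    have : ∀ y : G, (if q ((1 : G), φ (1 * y) * (φ y)⁻¹) = 1 then 1 else 0) = 1 := by
      intro y
      rw [one_mul, mul_inv_cancel, if_pos]
      exact map_one q
    simp only [this]
    simp
  · refine Finset.sum_congr rfl fun t ht => ?_
    have ht1 : t ≠ 1 := by simpa using ht
    exact (hφ t ht1).sum_comp (fun n => (if q (t, n) = 1 then 1 else 0))

/-- The bound for products of a `p`-group and a commutative group of order prime to `p`. -/
theorem bound_prod (P₁ P₂ W₁ W₂ : Type) [Group P₁] [Group P₂] [CommGroup W₁] [CommGroup W₂]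
    [Finite P₁] [Finite P₂] [Finite W₁] [Finite W₂]
    (hP₁ : IsPGroup p P₁) (hP₂ : IsPGroup p P₂)
    (hW₁ : ¬ p ∣ Nat.card W₁) (hW₂ : ¬ p ∣ Nat.card W₂)
    (e₁ : G ≃* P₁ × W₁) (e₂ : N ≃* P₂ × W₂) (hcard : Fintype.card G = Fintype.card N)
    (hv : p ∣ Fintype.card G) (φ : G → N) (hφ : Planar φ) :
    (p - 1) * Nat.card W₁ < Nat.card P₁ := by
  classical
  have := Fintype.ofFinite W₁
  have := Fintype.ofFinite W₂
  have := Fintype.ofFinite P₁
  have := Fintype.ofFinite P₂
  have hpp : p.Prime := Fact.out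
  let q : G × N →* W₁ × W₂ := MonoidHom.prodMap
    ((MonoidHom.snd P₁ W₁).comp e₁.toMonoidHom) ((MonoidHom.snd P₂ W₂).comp e₂.toMonoidHom)
  let j : W₁ × W₂ →* G × N := MonoidHom.prodMap
    (e₁.symm.toMonoidHom.comp (MonoidHom.inr P₁ W₁)) (e₂.symm.toMonoidHom.comp (MonoidHom.inr P₂ W₂))
  have hq : ∀ g n, q (g, n) = ((e₁ g).2, (e₂ n).2) := fun g n => rfl
  have hjj : ∀ a b, j (a, b) = (e₁.symm (1, a), e₂.symm (1, b)) := fun a b => rfl
  have hqj : ∀ w, q (j w) = w := by
    rintro ⟨a, b⟩
    rw [hjj, hq]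
    simp
  have hj : ∀ w k, j w * k = k * j w := by
    rintro ⟨a, b⟩ ⟨g, n⟩
    rw [hjj]
    apply Prod.ext
    · apply e₁.injective
      simp only [Prod.mk_mul_mk, map_mul, MulEquiv.apply_symm_apply]
      apply Prod.ext
      · simp
      · simp [mul_comm]
    · apply e₂.injective
      simp only [Prod.mk_mul_mk, map_mul, MulEquiv.apply_symm_apply]
      apply Prod.ext
      · simp
      · simp [mul_comm]
  have hH : IsPGroup p q.ker := by
    rintro ⟨⟨g, n⟩, hk⟩
    rw [MonoidHom.mem_ker, hq] at hk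
    have hk1 : (e₁ g).2 = 1 := congrArg Prod.fst hk
    have hk2 : (e₂ n).2 = 1 := congrArg Prod.snd hk
    obtain ⟨a, ha⟩ := hP₁ (e₁ g).1
    obtain ⟨b, hb⟩ := hP₂ (e₂ n).1
    refine ⟨a + b, ?_⟩
    apply Subtype.ext
    change ((g, n) : G × N) ^ p ^ (a + b) = 1
    rw [Prod.pow_mk]
    apply Prod.ext
    · apply e₁.injective
      change e₁ (g ^ p ^ (a + b)) = e₁ 1
      rw [map_pow, map_one]
      apply Prod.ext
      · rw [Prod.pow_fst, pow_add, pow_mul, ha, one_pow]; rfl
      · rw [Prod.pow_snd, hk1, one_pow]; rfl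
    · apply e₂.injective
      change e₂ (n ^ p ^ (a + b)) = e₂ 1
      rw [map_pow, map_one]
      apply Prod.ext
      · rw [Prod.pow_fst, add_comm, pow_add, pow_mul, hb, one_pow]; rfl
      · rw [Prod.pow_snd, hk2, one_pow]; rfl
  have hW : ¬ p ∣ Nat.card (W₁ × W₂) := by
    rw [Nat.card_prod, hpp.dvd_mul]
    tauto
  have hfib := fibre_dvd q j hqj hj hH hW φ hφ hv
  have hsq := sum_sq q φ hφ
  -- evaluate the right-hand side
  have hG : Fintype.card G = Nat.card P₁ * Nat.card W₁ := by
    rw [← Nat.card_eq_fintype_card, Nat.card_congr e₁.toEquiv, Nat.card_prod]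
  have hN : Fintype.card N = Nat.card P₂ * Nat.card W₂ := by
    rw [← Nat.card_eq_fintype_card, Nat.card_congr e₂.toEquiv, Nat.card_prod]
  have hk2 : ∀ t : G, ∑ n : N, (if q (t, n) = 1 then 1 else 0) =
      if (e₁ t).2 = 1 then Nat.card P₂ else 0 := by
    intro t
    have h1 : ∀ n : N, (if q (t, n) = 1 then 1 else 0) =
        if (e₁ t).2 = 1 then (if (e₂ n).2 = 1 then 1 else 0) else 0 := by
      intro n
      rw [hq]
      by_cases h : (e₁ t).2 = 1
      · rw [if_pos h, h]
        by_cases h' : (e₂ n).2 = 1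
        · rw [h']; simp
        · rw [if_neg h', if_neg]
          intro hc
          exact h' (congrArg Prod.snd hc)
      · rw [if_neg h, if_neg]
        intro hc
        exact h (congrArg Prod.fst hc)
    simp only [h1]
    by_cases h : (e₁ t).2 = 1
    · simp only [if_pos h]
      rw [Fintype.sum_equiv e₂.toEquiv (fun n : N => if (e₂ n).2 = 1 then 1 else 0)
        (fun x : P₂ × W₂ => if x.2 = 1 then 1 else 0) (fun n => rfl)]
      rw [Fintype.sum_prod_type]
      simp
    · simp only [if_neg h]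
      simp
  have hk1 : ∑ t ∈ Finset.univ.filter (fun t : G => t ≠ 1),
      ∑ n : N, (if q (t, n) = 1 then 1 else 0) = (Nat.card P₁ - 1) * Nat.card P₂ := by
    simp only [hk2]
    have h3 : ∑ t : G, (if (e₁ t).2 = 1 then Nat.card P₂ else 0) = Nat.card P₁ * Nat.card P₂ := by
      rw [Fintype.sum_equiv e₁.toEquiv (fun t : G => if (e₁ t).2 = 1 then Nat.card P₂ else 0)
        (fun x : P₁ × W₁ => if x.2 = 1 then Nat.card P₂ else 0) (fun n => rfl)]
      rw [Fintype.sum_prod_type]
      simp
    rw [← Finset.sum_filter_add_sum_filter_not Finset.univ (fun t : G => t ≠ 1)] at h3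
    have h4 : Finset.univ.filter (fun t : G => ¬ t ≠ 1) = {1} := by
      ext t; simp
    rw [h4, Finset.sum_singleton] at h3
    simp only [map_one, Prod.snd_one, if_true] at h3
    rw [Nat.sub_mul, one_mul]
    omega
  rw [hk1] at hsq
  have hsum : ∑ w : W₁ × W₂, (Finset.univ.filter (fun x : G => q (x, φ x) = w)).card =
      Fintype.card G := by
    rw [← Finset.card_univ]
    exact (Finset.card_eq_sum_card_fiberwise (fun x _ => Finset.mem_univ (q (x, φ x)))).symm
  have hle : p * Fintype.card G ≤ ∑ w : W₁ × W₂,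
      (Finset.univ.filter (fun x : G => q (x, φ x) = w)).card ^ 2 := by
    rw [← hsum, Finset.mul_sum]
    refine Finset.sum_le_sum fun w _ => ?_
    rcases Nat.eq_zero_or_pos (Finset.univ.filter (fun x : G => q (x, φ x) = w)).card with h | h
    · rw [h]; simp
    · have := Nat.le_of_dvd h (hfib w)
      rw [sq]
      exact Nat.mul_le_mul_right _ this
  rw [hsq] at hle
  -- the `p`-parts are equal
  have hPP : Nat.card P₁ = Nat.card P₂ := by
    obtain ⟨a, ha⟩ := (IsPGroup.iff_card).1 hP₁
    obtain ⟨b, hb⟩ := (IsPGroup.iff_card).1 hP₂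
    have h1 : Nat.card P₁ * Nat.card W₁ = Nat.card P₂ * Nat.card W₂ := by
      rw [← hG, ← hN, hcard]
    apply Nat.dvd_antisymm
    · apply Nat.Coprime.dvd_of_dvd_mul_right (n := Nat.card W₂)
      · rw [ha]
        exact Nat.Coprime.pow_left _ ((Nat.Prime.coprime_iff_not_dvd hpp).2 hW₂)
      · rw [← h1]; exact Dvd.intro _ rfl
    · apply Nat.Coprime.dvd_of_dvd_mul_right (n := Nat.card W₁)
      · rw [hb]
        exact Nat.Coprime.pow_left _ ((Nat.Prime.coprime_iff_not_dvd hpp).2 hW₁)
      · rw [h1]; exact Dvd.intro _ rfl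
  rw [hG, ← hPP] at hle
  have hPpos : 0 < Nat.card P₁ := Nat.card_pos
  obtain ⟨p', rfl⟩ : ∃ p', p = p' + 1 := ⟨p - 1, by have := hpp.pos; omega⟩
  have h5 : p' * (Nat.card P₁ * Nat.card W₁) ≤ (Nat.card P₁ - 1) * Nat.card P₁ := by
    have : (p' + 1) * (Nat.card P₁ * Nat.card W₁) =
      p' * (Nat.card P₁ * Nat.card W₁) + Nat.card P₁ * Nat.card W₁ := by ring
    omega
  have h6 : p' * Nat.card W₁ ≤ Nat.card P₁ - 1 := by
    apply Nat.le_of_mul_le_mul_right _ hPpos
    calc p' * Nat.card W₁ * Nat.card P₁ = p' * (Nat.card P₁ * Nat.card W₁) := by ring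
      _ ≤ _ := h5
  rw [Nat.add_sub_cancel]
  omega

end Main

end Pool.Agent.Lib_helper77.PLF
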