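import Mathlib

set_option autoImplicit false

/-!
# Group algebras of `p`-groups times commutative groups, in characteristic `p`

`K` is a finite group, `q : K →* W` a homomorphism onto a finite commutative group with kernel a
`p`-group, and `j : W →* K` a section of `q` with central image.  If `|W|` is prime to `p` then for
every `R` in `𝔽_p[K]` arbitrarily large powers of `R` are equal to `ι (π R)`.
-/

namespace Pool.Agent.Lib_helper77.PLF

open MonoidAlgebra

/-- The group algebra over `𝔽_p`. -/
abbrev Alg (p : ℕ) (K : Type) : Type := MonoidAlgebra (ZMod p) K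

section Setup

variable {p : ℕ} [Fact p.Prime] {K W : Type} [Group K] [CommGroup W]

instance algFinite [Finite K] : Finite (Alg p K) := by
  classical
  exact Finite.of_equiv (K → ZMod p)
    (Finsupp.equivFunOnFinite.symm.trans (coeffEquiv (R := ZMod p) (M := K)).symm)

theorem mdr_single {M N : Type} [Monoid M] [Monoid N] (f : M →* N) (a : M) (r : ZMod p) :
    mapDomainRingHom (ZMod p) f (single a r) = single (f a) r := by
  change mapDomain f (single a r) = _
  exact mapDomain_single ..

instance algCharP : CharP (Alg p K) p :=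
  charP_of_injective_algebraMap (algebraMap (ZMod p) (Alg p K)).injective p

theorem central (j : W →* K) (hj : ∀ w k, j w * k = k * j w) (a : Alg p W) (x : Alg p K) :
    mapDomainRingHom (ZMod p) j a * x = x * mapDomainRingHom (ZMod p) j a := by
  induction a using MonoidAlgebra.induction_linear with
  | zero => simp
  | add a b ha hb => rw [map_add, add_mul, mul_add, ha, hb]
  | single w r =>
    rw [mdr_single]
    exact (single_commute (fun k => hj w k) (fun r' => Commute.all _ _) x)

/-- The left multiples `m` with `m * e = m`. -/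
def Vs (e : Alg p K) : AddSubgroup (Alg p K) where
  carrier := {m | m * e = m}
  zero_mem' := by simp
  add_mem' := by
    intro a b ha hb
    change (a + b) * e = a + b
    rw [add_mul, show a * e = a from ha, show b * e = b from hb]
  neg_mem' := by
    intro a ha
    change (-a) * e = -a
    rw [neg_mul, show a * e = a from ha]

/-- The action of a subgroup by left multiplication. -/
@[reducible]
noncomputable def vsAct (H : Subgroup K) (e : Alg p K) : MulAction H (Vs e) where
  smul h m := ⟨single (h : K) 1 * m.1, by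
    change single (h : K) 1 * m.1 * e = single (h : K) 1 * m.1
    rw [mul_assoc, show m.1 * e = m.1 from m.2]⟩
  one_smul m := by
    apply Subtype.ext
    change single ((1 : H) : K) (1 : ZMod p) * m.1 = m.1
    rw [Subgroup.coe_one, ← MonoidAlgebra.one_def, one_mul]
  mul_smul a b m := by
    apply Subtype.ext
    change single ((a * b : H) : K) (1 : ZMod p) * m.1 =
      single (a : K) (1 : ZMod p) * (single (b : K) (1 : ZMod p) * m.1)
    rw [← mul_assoc, single_mul_single, Subgroup.coe_mul, one_mul]

theorem exists_fixed [Finite K] (H : Subgroup K) (hH : IsPGroup p H) (e : Alg p K)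
    (he : e * e = e) (h0 : e ≠ 0) :
    ∃ m : Alg p K, m ≠ 0 ∧ m * e = m ∧ ∀ h ∈ H, single h (1 : ZMod p) * m = m := by
  let _ := vsAct H e
  have hcard : p ∣ Nat.card (Vs e) := by
    have h1 : addOrderOf (⟨e, he⟩ : Vs e) = p := by
      apply addOrderOf_eq_prime
      · apply Subtype.ext
        change p • e = 0
        rw [← Nat.cast_smul_eq_nsmul (ZMod p), ZMod.natCast_self, zero_smul]
      · intro h
        exact h0 (congrArg Subtype.val h)
    have h2 := addOrderOf_dvd_natCard (⟨e, he⟩ : Vs e)
    rwa [h1] at h2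
  have hfix : (0 : Vs e) ∈ MulAction.fixedPoints H (Vs e) := by
    intro h
    apply Subtype.ext
    change single (h : K) (1 : ZMod p) * (0 : Alg p K) = 0
    rw [mul_zero]
  obtain ⟨m, hm, hne⟩ := hH.exists_fixed_point_of_prime_dvd_card_of_fixed_point (Vs e) hcard hfix
  refine ⟨m.1, fun h => hne (Subtype.ext h.symm), m.2, ?_⟩
  intro h hh
  have := hm ⟨h, hh⟩
  exact congrArg Subtype.val this

variable (q : K →* W) (j : W →* K) 

theorem bij (hqj : ∀ w, q (j w) = w) :
    Function.Bijective (fun hw : q.ker × W => (hw.1 : K) * j hw.2) := by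
  constructor
  · rintro ⟨⟨h, hh⟩, w⟩ ⟨⟨h', hh'⟩, w'⟩ heq
    simp only at heq
    have h1 := congrArg q heq
    rw [map_mul, map_mul, hqj, hqj, (MonoidHom.mem_ker).1 hh, (MonoidHom.mem_ker).1 hh', one_mul,
      one_mul] at h1
    subst h1
    have h2 := mul_right_cancel heq
    subst h2
    rfl
  · intro k
    refine ⟨(⟨k * (j (q k))⁻¹, ?_⟩, q k), ?_⟩
    · rw [MonoidHom.mem_ker, map_mul, map_inv, hqj, mul_inv_cancel]
    · simp

/-- The sum of the elements of the kernel. -/
noncomputable def Hh [Fintype q.ker] : Alg p K := ∑ h : q.ker, single (h : K) (1 : ZMod p)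

theorem Hh_mul [Fintype q.ker] (h : K) (hh : h ∈ q.ker) :
    Hh (p := p) q * single h (1 : ZMod p) = Hh q := by
  unfold Hh
  rw [Finset.sum_mul]
  refine Fintype.sum_equiv (Equiv.mulRight (⟨h, hh⟩ : q.ker)) _ _ ?_
  intro x
  rw [single_mul_single]
  simp

theorem Hh_pi [Fintype q.ker] (hqj : ∀ w, q (j w) = w) (x : Alg p K) :
    Hh (p := p) q * x =
      Hh q * mapDomainRingHom (ZMod p) j (mapDomainRingHom (ZMod p) q x) := by
  induction x using MonoidAlgebra.induction_linear with
  | zero => simp
  | add a b ha hb => rw [mul_add, map_add, map_add, mul_add, ha, hb]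
  | single k r =>
    rw [mdr_single, mdr_single]
    have h1 : single k r = single (k * (j (q k))⁻¹) (1 : ZMod p) * single (j (q k)) r := by
      rw [single_mul_single]; simp
    rw [h1, ← mul_assoc, Hh_mul]
    rw [MonoidHom.mem_ker, map_mul, map_inv, hqj, mul_inv_cancel]

theorem fixed_eq [Fintype q.ker] [Fintype W] [Finite K] (hqj : ∀ w, q (j w) = w) (m : Alg p K)
    (hm : ∀ h ∈ q.ker, single h (1 : ZMod p) * m = m) :
    m = Hh q * mapDomainRingHom (ZMod p) j (∑ w : W, single w (m.coeff (j w))) := by
  classical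
  have := Fintype.ofFinite K
  have hinv : ∀ h ∈ q.ker, ∀ k, m.coeff (h * k) = m.coeff k := by
    intro h hh k
    conv_lhs => rw [← hm h hh]
    rw [coeff_single_mul_apply]
    simp
  have h1 : m = ∑ k : K, single k (m.coeff k) := by
    conv_lhs => rw [← sum_coeff_single m]
    rw [Finsupp.sum_fintype]
    intro i
    simp
  rw [map_sum]
  conv_lhs => rw [h1]
  rw [← (bij q j hqj).sum_comp (fun k => single k (m.coeff k))]
  rw [Fintype.sum_prod_type]
  unfold Hh
  rw [Finset.sum_mul]
  refine Finset.sum_congr rfl fun h _ => ?_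
  rw [Finset.mul_sum]
  refine Finset.sum_congr rfl fun w _ => ?_
  rw [mdr_single, single_mul_single, hinv _ h.2, one_mul]

/-- An idempotent killed by `π` is zero. -/
theorem idem_zero [Finite K] [Finite W] (hqj : ∀ w, q (j w) = w)
    (hj : ∀ w k, j w * k = k * j w) (hH : IsPGroup p q.ker) (e : Alg p K) (he : e * e = e)
    (hpi : mapDomainRingHom (ZMod p) q e = 0) : e = 0 := by
  by_contra h0
  have := Fintype.ofFinite K
  have := Fintype.ofFinite W
  have := Fintype.ofFinite q.ker
  obtain ⟨m, hm0, hme, hfix⟩ := exists_fixed q.ker hH e he h0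
  apply hm0
  have h1 := fixed_eq q j hqj m hfix
  rw [← hme, h1, ← central j hj, mul_assoc, Hh_pi q j hqj e, hpi]
  simp

/-- Every element killed by `π` is nilpotent. -/
theorem nilp [Finite K] [Finite W] (hqj : ∀ w, q (j w) = w)
    (hj : ∀ w k, j w * k = k * j w) (hH : IsPGroup p q.ker) (f : Alg p K)
    (hpi : mapDomainRingHom (ZMod p) q f = 0) : ∃ n : ℕ, f ^ n = 0 := by
  obtain ⟨a, b, hab, heq⟩ := Finite.exists_ne_map_eq_of_infinite (fun n : ℕ => f ^ (n + 1))
  -- wlog `a < b`
  have key : ∀ a b : ℕ, a < b → f ^ (a + 1) = f ^ (b + 1) → ∃ n : ℕ, f ^ n = 0 := by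
    intro a b hlt heq
    obtain ⟨d, rfl⟩ := Nat.exists_eq_add_of_lt hlt
    -- period `d + 1`
    have hper : ∀ n, a + 1 ≤ n → f ^ (n + (d + 1)) = f ^ n := by
      intro n hn
      obtain ⟨c, rfl⟩ := Nat.exists_eq_add_of_le hn
      calc f ^ (a + 1 + c + (d + 1)) = f ^ (a + d + 1 + 1) * f ^ c := by
            rw [← pow_add]; congr 1; ring
        _ = f ^ (a + 1) * f ^ c := by rw [← heq]
        _ = f ^ (a + 1 + c) := by rw [← pow_add]
    have hper2 : ∀ k n, a + 1 ≤ n → f ^ (n + k * (d + 1)) = f ^ n := by
      intro k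
      induction k with
      | zero => intro n _; simp
      | succ k ih =>
        intro n hn
        rw [show n + (k + 1) * (d + 1) = (n + k * (d + 1)) + (d + 1) by ring,
          hper _ (by omega), ih n hn]
    refine ⟨(a + 1) * (d + 1), ?_⟩
    apply idem_zero q j hqj hj hH
    · rw [← pow_add]
      apply hper2
      nlinarith
    · rw [map_pow, hpi, zero_pow]
      positivity
  rcases lt_or_gt_of_ne hab with h | h
  · exact key a b h heq
  · exact key b a h heq.symm

/-- Large powers of `R` are equal to `ι (π R)`. -/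
theorem large_pow [Finite K] [Finite W] (hqj : ∀ w, q (j w) = w)
    (hj : ∀ w k, j w * k = k * j w) (hH : IsPGroup p q.ker) (hW : ¬ p ∣ Nat.card W)
    (R : Alg p K) (M : ℕ) :
    ∃ n ≥ M, R ^ n = mapDomainRingHom (ZMod p) j (mapDomainRingHom (ZMod p) q R) := by
  classical
  have := Fintype.ofFinite K
  have := Fintype.ofFinite W
  set r : Alg p W := mapDomainRingHom (ZMod p) q R with hr
  set E : Alg p K := mapDomainRingHom (ZMod p) j r with hE
  have hpiE : mapDomainRingHom (ZMod p) q E = r := by
    rw [hE, ← RingHom.comp_apply, ← mapDomainRingHom_comp]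
    have : q.comp j = MonoidHom.id W := by ext w; simp [hqj]
    rw [this, mapDomainRingHom_id]
    rfl
  obtain ⟨N, hN⟩ := nilp q j hqj hj hH (R - E) (by rw [map_sub, hpiE, ← hr, sub_self])
  have hcop : Nat.Coprime p (Nat.card W) :=
    ((Nat.Prime.coprime_iff_not_dvd Fact.out).2 hW)
  have hWpos : 0 < Nat.card W := Nat.card_pos
  set s : ℕ := Nat.totient (Nat.card W) * (M + N) with hs
  have hp1 : 1 < p := (Fact.out : p.Prime).one_lt
  have hsge : M + N ≤ s := Nat.le_mul_of_pos_left _ (Nat.totient_pos.2 hWpos)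
  have hlt : s < p ^ s := Nat.lt_pow_self hp1
  refine ⟨p ^ s, by omega, ?_⟩
  have hmod : p ^ s ≡ 1 [MOD Nat.card W] := by
    have h1 := Nat.ModEq.pow_totient hcop
    have h2 := h1.pow (M + N)
    rw [← pow_mul, one_pow] at h2
    exact h2
  have hw : ∀ w : W, w ^ (p ^ s) = w := by
    intro w
    have h1 : p ^ s ≡ 1 [MOD orderOf w] := hmod.of_dvd (orderOf_dvd_natCard w)
    have h2 := (pow_eq_pow_iff_modEq).2 h1
    rw [h2, pow_one]
  have hrpow : r ^ (p ^ s) = r := by
    have h1 : r = ∑ w : W, single w (r.coeff w) := by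
      conv_lhs => rw [← sum_coeff_single r]
      rw [Finsupp.sum_fintype]
      intro i
      simp
    conv_lhs => rw [h1]
    rw [sum_pow_char_pow]
    conv_rhs => rw [h1]
    refine Finset.sum_congr rfl fun w _ => ?_
    rw [single_pow, hw, ZMod.pow_card_pow]
  have hsplit : R = E + (R - E) := by abel
  have hcomm : Commute E (R - E) := central j hj r (R - E)
  calc R ^ (p ^ s) = (E + (R - E)) ^ (p ^ s) := by rw [← hsplit]
    _ = E ^ (p ^ s) + (R - E) ^ (p ^ s) := add_pow_char_pow_of_commute _ _ hcomm
    _ = E ^ (p ^ s) := by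
        rw [show (R - E) ^ (p ^ s) = 0 from pow_eq_zero_of_le (by omega) hN, add_zero]
    _ = E := by rw [hE, ← map_pow, hrpow]

end Setup

end Pool.Agent.Lib_helper77.PLF
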