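import Pool.Agent.Lib_helper77.PLF.Main

set_option autoImplicit false

/-!
# Nilpotent groups whose Sylow subgroups are commutative for the primes other than `p`
-/

namespace Pool.Agent.Lib_helper77.PLF

/-- Decomposition of such a nilpotent group. -/
theorem decomp (p : ℕ) [Fact p.Prime] (G : Type) [Group G] [Finite G] [Group.IsNilpotent G]
    (hab : ∀ r : ℕ, r.Prime → r ≠ p → ∀ S : Sylow r G, ∀ x ∈ S, ∀ y ∈ S, x * y = y * x) :
    ∃ (P W : Type) (_ : Group P) (_ : CommGroup W) (_ : Finite P) (_ : Finite W),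
      IsPGroup p P ∧ ¬ p ∣ Nat.card W ∧ Nonempty (G ≃* P × W) := by
  classical
  obtain ⟨e⟩ := (Group.isNilpotent_of_finite_tfae (G := G)).out 0 4 rfl rfl |>.mp ‹_›
  let I := (Nat.card G).primeFactors
  let P : Type := ∀ r : {r : I // (r : ℕ) = p}, ∀ S : Sylow (r : ℕ) G, (S : Subgroup G)
  let W : Type := ∀ r : {r : I // ¬ (r : ℕ) = p}, ∀ S : Sylow (r : ℕ) G, (S : Subgroup G)
  let instW : CommGroup W :=
    { (inferInstance : Group W) with
      mul_comm := by
        intro x y
        funext r S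
        apply Subtype.ext
        have hr : (r.1 : ℕ).Prime := (Nat.mem_primeFactors.1 r.1.2).1
        exact hab _ hr r.2 S _ (x r S).2 _ (y r S).2 }
  have hfS : ∀ r : I, Fact (r : ℕ).Prime := fun r => ⟨(Nat.mem_primeFactors.1 r.2).1⟩
  refine ⟨P, W, inferInstance, instW, inferInstance, inferInstance, ?_, ?_, ?_⟩
  · intro x
    refine ⟨(Nat.card G).factorization p, ?_⟩
    funext r S
    have h1 : (x r S) ^ Nat.card (S : Subgroup G) = 1 := pow_card_eq_one'
    have := hfS r.1
    have hc : Nat.card (S : Subgroup G) = (r.1 : ℕ) ^ (Nat.card G).factorization (r.1 : ℕ) :=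
      Sylow.card_eq_multiplicity S
    have hc' : (r.1 : ℕ) ^ (Nat.card G).factorization (r.1 : ℕ) =
        p ^ (Nat.card G).factorization p := by rw [r.2]
    rw [hc, hc'] at h1
    exact h1
  · intro hdvd
    obtain ⟨x, hx⟩ := exists_prime_orderOf_dvd_card' (G := W) p hdvd
    have hxp : x ^ p = 1 := by
      have h0 := pow_orderOf_eq_one x
      rwa [hx] at h0
    have hx1 : x ≠ 1 := by
      intro h
      rw [h, orderOf_one] at hx
      exact (Fact.out : p.Prime).one_lt.ne hx
    apply hx1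
    funext r S
    have hr := hfS r.1
    have h1 : (x r S) ^ p = 1 := congrFun (congrFun hxp r) S
    have h2 : (x r S) ^ Nat.card (S : Subgroup G) = 1 := pow_card_eq_one'
    rw [Sylow.card_eq_multiplicity] at h2
    have h3 : orderOf (x r S) ∣ Nat.gcd p ((r.1 : ℕ) ^ (Nat.card G).factorization (r.1 : ℕ)) :=
      Nat.dvd_gcd (orderOf_dvd_of_pow_eq_one h1) (orderOf_dvd_of_pow_eq_one h2)
    have h4 : Nat.Coprime p ((r.1 : ℕ) ^ (Nat.card G).factorization (r.1 : ℕ)) := by
      apply Nat.Coprime.pow_right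
      exact (Nat.coprime_primes Fact.out hr.out).2 (fun h => r.2 h.symm)
    rw [h4.gcd_eq_one, Nat.dvd_one, orderOf_eq_one_iff] at h3
    exact h3
  · let f : (∀ r : I, ∀ S : Sylow (r : ℕ) G, (S : Subgroup G)) ≃* P × W :=
      { Equiv.piEquivPiSubtypeProd (fun r : I => (r : ℕ) = p)
          (fun r : I => ∀ S : Sylow (r : ℕ) G, (S : Subgroup G)) with
        map_mul' := fun _ _ => rfl }
    exact ⟨e.symm.trans f⟩

end Pool.Agent.Lib_helper77.PLF
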