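import Pool.Agent.Lib_helper77.PLF.Nil

set_option autoImplicit false

/-!
# The graph of a planar function in the group algebra
-/

namespace Pool.Agent.Lib_helper77.PLF

open MonoidAlgebra

section Planar

variable {p : ℕ} [Fact p.Prime] {G N : Type} [Group G] [Group N] [Fintype G] [Fintype N]

/-- Planar functions. -/
def Planar (φ : G → N) : Prop :=
  ∀ x : G, x ≠ 1 → Function.Bijective (fun y : G => φ (x * y) * (φ y)⁻¹)

/-- The graph of `φ`. -/
noncomputable def Rg (p : ℕ) (φ : G → N) : Alg p (G × N) := ∑ x : G, single (x, φ x) (1 : ZMod p)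

/-- The inverses of the graph of `φ`. -/
noncomputable def Rs (p : ℕ) (φ : G → N) : Alg p (G × N) :=
  ∑ x : G, single (x, φ x)⁻¹ (1 : ZMod p)

/-- The sum of all elements. -/
noncomputable def Kh (p : ℕ) (G N : Type) [Group G] [Group N] [Fintype G] [Fintype N] :
    Alg p (G × N) := ∑ k : G × N, single k (1 : ZMod p)

theorem single_Kh (k : G × N) : single k (1 : ZMod p) * Kh p G N = Kh p G N := by
  unfold Kh
  rw [Finset.mul_sum]
  refine Fintype.sum_equiv (Equiv.mulLeft k) _ _ ?_
  intro x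
  rw [single_mul_single]
  simp

theorem R_Kh (φ : G → N) (hv : (Fintype.card G : ZMod p) = 0) : Rg p φ * Kh p G N = 0 := by
  unfold Rg
  rw [Finset.sum_mul]
  simp only [single_Kh]
  rw [Finset.sum_const, Finset.card_univ, ← Nat.cast_smul_eq_nsmul (ZMod p), hv, zero_smul]

theorem R_col (φ : G → N) (t : G) :
    Rg p φ * ∑ n : N, single (t, n) (1 : ZMod p) = Kh p G N := by
  unfold Rg Kh
  rw [Finset.sum_mul, Fintype.sum_prod_type]
  refine Fintype.sum_equiv (Equiv.mulRight t) _ _ ?_
  intro x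
  rw [Finset.mul_sum]
  refine Fintype.sum_equiv (Equiv.mulLeft (φ x)) _ _ ?_
  intro n
  rw [single_mul_single]
  simp

theorem R_Rs [DecidableEq G] (φ : G → N) (hφ : Planar φ) (hv : (Fintype.card G : ZMod p) = 0) :
    Rg p φ * Rs p φ = ∑ t ∈ Finset.univ.filter (fun t : G => t ≠ 1),
      ∑ n : N, single (t, n) (1 : ZMod p) := by
  have h1 : Rg p φ * Rs p φ = ∑ t : G, ∑ y : G,
      single ((t, φ (t * y) * (φ y)⁻¹) : G × N) (1 : ZMod p) := by
    unfold Rg Rs
    rw [Finset.sum_mul_sum, Finset.sum_comm]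
    rw [Finset.sum_comm (γ := G) (f := fun t y => single ((t, φ (t * y) * (φ y)⁻¹) : G × N) (1 : ZMod p))]
    refine Finset.sum_congr rfl fun y _ => ?_
    refine Fintype.sum_equiv (Equiv.mulRight y⁻¹) _ _ ?_
    intro x
    rw [single_mul_single]
    simp
  rw [h1, ← Finset.sum_filter_add_sum_filter_not Finset.univ (fun t : G => t ≠ 1)]
  have h2 : ∑ t ∈ Finset.univ.filter (fun t : G => ¬ t ≠ 1), ∑ y : G,
      single ((t, φ (t * y) * (φ y)⁻¹) : G × N) (1 : ZMod p) = 0 := by
    apply Finset.sum_eq_zero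
    intro t ht
    have ht1 : t = 1 := by simpa using ht
    subst ht1
    have : ∀ y : G, single (((1 : G), φ (1 * y) * (φ y)⁻¹) : G × N) (1 : ZMod p) =
        single (1 : G × N) (1 : ZMod p) := by
      intro y
      rw [one_mul, mul_inv_cancel]
      rfl
    simp only [this]
    rw [Finset.sum_const, Finset.card_univ, ← Nat.cast_smul_eq_nsmul (ZMod p), hv, zero_smul]
  rw [h2, add_zero]
  refine Finset.sum_congr rfl fun t ht => ?_
  have ht1 : t ≠ 1 := by simpa using ht
  exact (hφ t ht1).sum_comp (fun n => single ((t, n) : G × N) (1 : ZMod p))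

theorem R3_Rs (φ : G → N) (hφ : Planar φ) (hv : (Fintype.card G : ZMod p) = 0) :
    Rg p φ ^ 3 * Rs p φ = 0 := by
  classical
  have h1 : Rg p φ * (Rg p φ * Rs p φ) =
      ∑ t ∈ Finset.univ.filter (fun t : G => t ≠ 1), Kh p G N := by
    rw [R_Rs φ hφ hv, Finset.mul_sum]
    refine Finset.sum_congr rfl fun t _ => ?_
    exact R_col φ t
  have h2 : Rg p φ * (Rg p φ * (Rg p φ * Rs p φ)) = 0 := by
    rw [h1, Finset.mul_sum]
    apply Finset.sum_eq_zero
    intro t _
    exact R_Kh φ hv
  calc Rg p φ ^ 3 * Rs p φ = Rg p φ * (Rg p φ * (Rg p φ * Rs p φ)) := by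
        simp only [pow_succ, pow_zero, one_mul, mul_assoc]
    _ = 0 := h2

/-- The weight lemma. -/
theorem weight (φ : G → N) (hφ : Planar φ) (Z : Alg p (G × N)) (hZ : Rs p φ * Z = 0)
    (h0 : Z ≠ 0) : Fintype.card G + 1 ≤ Z.coeff.support.card := by
  classical
  have hcoef : ∀ g : G × N, ∑ x : G, Z.coeff ((x, φ x) * g) = 0 := by
    intro g
    have h1 : (Rs p φ * Z).coeff g = 0 := by rw [hZ]; rfl
    unfold Rs at h1
    rw [Finset.sum_mul, coeff_sum, Finsupp.finsetSum_apply] at h1
    rw [← h1]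
    refine Finset.sum_congr rfl fun x _ => ?_
    rw [coeff_single_mul_apply, inv_inv, one_mul]
  obtain ⟨k, hk⟩ : ∃ k, Z.coeff k ≠ 0 := by
    by_contra hcon
    push Not at hcon
    apply h0
    ext k
    simpa using hcon k
  have hex : ∀ y : G, ∃ x : G, x ≠ y ∧ Z.coeff ((x, φ x) * ((y, φ y)⁻¹ * k)) ≠ 0 := by
    intro y
    by_contra hcon
    push Not at hcon
    have h1 := hcoef ((y, φ y)⁻¹ * k)
    rw [Finset.sum_eq_single y (fun x _ hx => hcon x hx) (fun h => absurd (Finset.mem_univ _) h),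
      mul_inv_cancel_left] at h1
    exact hk h1
  choose f hf1 hf2 using hex
  have hinj : Function.Injective (fun y : G => ((f y, φ (f y)) * ((y, φ y)⁻¹ * k) : G × N)) := by
    intro y y' h
    simp only [← mul_assoc] at h
    have h1 := mul_right_cancel h
    have h2 : f y * y⁻¹ = f y' * y'⁻¹ := congrArg Prod.fst h1
    have h3 : φ (f y) * (φ y)⁻¹ = φ (f y') * (φ y')⁻¹ := congrArg Prod.snd h1
    have ht : f y * y⁻¹ ≠ 1 := by
      intro hc
      exact hf1 y (mul_inv_eq_one.1 hc)
    apply (hφ (f y * y⁻¹) ht).1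
    simp only [inv_mul_cancel_right]
    rw [h3]
    rw [h2, inv_mul_cancel_right]
  have hsub : insert k (Finset.univ.image
      (fun y : G => ((f y, φ (f y)) * ((y, φ y)⁻¹ * k) : G × N))) ⊆ Z.coeff.support := by
    intro z hz
    rw [Finset.mem_insert, Finset.mem_image] at hz
    rw [Finsupp.mem_support_iff]
    rcases hz with rfl | ⟨y, _, rfl⟩
    · exact hk
    · exact hf2 y
  have hnot : k ∉ (Finset.univ.image
      (fun y : G => ((f y, φ (f y)) * ((y, φ y)⁻¹ * k) : G × N))) := by
    intro h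
    rw [Finset.mem_image] at h
    obtain ⟨y, _, hy⟩ := h
    rw [← mul_assoc] at hy
    have h1 := mul_eq_right.1 hy
    have h2 : f y * y⁻¹ = 1 := congrArg Prod.fst h1
    exact hf1 y (mul_inv_eq_one.1 h2)
  have := Finset.card_le_card hsub
  rw [Finset.card_insert_of_notMem hnot, Finset.card_image_of_injective _ hinj,
    Finset.card_univ] at this
  exact this

end Planar

end Pool.Agent.Lib_helper77.PLF
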